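import Pool.Agent.Lib_helper37.TwoNormsDefs
import Pool.Agent.Lib_helper37.TwoNorms12

namespace Pool.Agent.Results.MP_357fb8_an.ExactlyTwoNorms

open Pool.Agent.Lib_helper37.TwoNormsDefs

/-- There is a unital complex associative algebra with exactly two equivalence classes of
Banach algebra norms. -/
theorem result :
    ∃ (A : Type) (_ : Ring A) (_ : Algebra ℂ A), numBanachAlgebraNorms A = 2 :=
  Pool.Agent.Lib_helper37.TwoNorms.main

end Pool.Agent.Results.MP_357fb8_an.ExactlyTwoNorms
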